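import Pool.Agent.H482R3.EA.Stm

set_option autoImplicit false

/-! Project EA: the homomorphism from the free group to the group generated by `v` and `w`. -/

namespace Pool.Agent.H690R6.EA.XH

open Pool.Agent.H482R3.EA

variable {G : Type} [Group G]

/-- the conjugates `w ^ i v w ^ (-i)` -/
def dd (v w : G) (i : ℤ) : G := w ^ i * v * w ^ (-i)

theorem prod_dd (v w : G) (n : ℕ) :
    (List.ofFn fun r : Fin n => dd v w ((r : ℕ) : ℤ)).prod = (v * w) ^ n * w ^ (-(n : ℤ)) := by
  induction n with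
  | zero => simp
  | succ n ih =>
    rw [List.ofFn_succ_last, List.prod_append]
    have e : (fun i : Fin n => dd v w (((Fin.castSucc i : Fin (n + 1)) : ℕ) : ℤ)) =
        fun r : Fin n => dd v w ((r : ℕ) : ℤ) := by
      funext i
      rfl
    have e2 : [dd v w (((Fin.last n : Fin (n + 1)) : ℕ) : ℤ)].prod = dd v w (n : ℤ) := by
      simp
    rw [e, e2, ih]
    unfold dd
    rw [pow_succ]
    have e3 : (-((n + 1 : ℕ) : ℤ)) = -1 + -(n : ℤ) := by push_cast; ring
    rw [e3, zpow_add, zpow_neg_one]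
    group

theorem comm_v (v w : G) (k : ℕ) (h : (v * w) ^ k = (w * v) ^ k) : Commute ((v * w) ^ k) v := by
  have h1 : ∀ n : ℕ, v * (w * v) ^ n = (v * w) ^ n * v := by
    intro n
    induction n with
    | zero => simp
    | succ n ih =>
      calc v * (w * v) ^ (n + 1) = v * (w * v) ^ n * (w * v) := by rw [pow_succ, mul_assoc]
        _ = (v * w) ^ n * v * (w * v) := by rw [ih]
        _ = (v * w) ^ n * (v * w) * v := by simp only [mul_assoc]
        _ = (v * w) ^ (n + 1) * v := by rw [← pow_succ]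
  have h2 := h1 k
  rw [← h] at h2
  exact h2.symm

theorem comm_w (v w : G) (k : ℕ) (h : (v * w) ^ k = (w * v) ^ k) : Commute ((v * w) ^ k) w := by
  have h1 := comm_v w v k h.symm
  rw [← h] at h1
  exact h1

theorem conj_dd (v w : G) (k : ℕ) (h : (v * w) ^ k = (w * v) ^ k) (r j : ℤ) :
    ((v * w) ^ k * w ^ (-(k : ℤ))) ^ (-j) * dd v w r * ((v * w) ^ k * w ^ (-(k : ℤ))) ^ j =
      dd v w (r + k * j) := by
  have hv := comm_v v w k h
  have hw := comm_w v w k h
  have hc : Commute ((v * w) ^ k) (w ^ (-(k : ℤ))) := hw.zpow_right _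
  have hd : Commute (((v * w) ^ k) ^ j) (dd v w r) := by
    apply Commute.zpow_left
    unfold dd
    exact ((hw.zpow_right _).mul_right hv).mul_right (hw.zpow_right _)
  rw [zpow_neg, hc.mul_zpow]
  have e1 : ((v * w) ^ k) ^ j * (w ^ (-(k : ℤ))) ^ j = (w ^ (-(k : ℤ))) ^ j * ((v * w) ^ k) ^ j :=
    (hc.zpow_zpow j j).eq
  have e2 : (w ^ (-(k : ℤ))) ^ j = w ^ (-((k : ℤ) * j)) := by
    rw [← zpow_mul]
    congr 1
    ring
  have e3 : (((v * w) ^ k) ^ j)⁻¹ * dd v w r * ((v * w) ^ k) ^ j = dd v w r := by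
    rw [mul_assoc, ← hd.eq, inv_mul_cancel_left]
  calc (((v * w) ^ k) ^ j * (w ^ (-(k : ℤ))) ^ j)⁻¹ * dd v w r *
        (((v * w) ^ k) ^ j * (w ^ (-(k : ℤ))) ^ j)
      = ((w ^ (-(k : ℤ))) ^ j)⁻¹ * ((((v * w) ^ k) ^ j)⁻¹ * dd v w r * ((v * w) ^ k) ^ j) *
          (w ^ (-(k : ℤ))) ^ j := by
        rw [mul_inv_rev]
        simp only [mul_assoc]
    _ = ((w ^ (-(k : ℤ))) ^ j)⁻¹ * dd v w r * (w ^ (-(k : ℤ))) ^ j := by rw [e3]
    _ = dd v w (r + k * j) := by
        rw [e2]
        unfold dd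
        rw [← zpow_neg, neg_neg]
        have e4 : (r + (k : ℤ) * j) = (k : ℤ) * j + r := by ring
        have e5 : (-(r + (k : ℤ) * j)) = -r + -((k : ℤ) * j) := by ring
        rw [e5, e4, zpow_add, zpow_add]
        simp only [mul_assoc]

theorem t_XH : S_XH := by
  intro G _ v w g k hk h i
  set φ : FreeGroup (Fin k) →* G := FreeGroup.lift
    (fun r : Fin k => g * w ^ (r : ℕ) * v * w ^ (-((r : ℕ) : ℤ)) * g⁻¹) with hφ
  have hof : ∀ r : Fin k, φ (FreeGroup.of r) = MulAut.conj g (dd v w ((r : ℕ) : ℤ)) := by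
    intro r
    rw [hφ, FreeGroup.lift_apply_of, MulAut.conj_apply]
    unfold dd
    rw [zpow_natCast]
    simp only [mul_assoc]
  have hP : φ (PP k) = MulAut.conj g ((v * w) ^ k * w ^ (-(k : ℤ))) := by
    rw [← prod_dd]
    unfold PP
    rw [map_list_prod, map_list_prod, List.map_ofFn, List.map_ofFn]
    congr 1
    congr 1
    funext r
    exact hof r
  have hx : φ (xx k i) = MulAut.conj g (dd v w (i % k + k * (i / k))) := by
    have h1 := Int.emod_nonneg i (b := (k : ℤ)) (by omega)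
    have h2 : (((i % (k : ℤ)).toNat : ℕ) : ℤ) = i % (k : ℤ) := Int.toNat_of_nonneg h1
    unfold xx
    rw [dif_pos hk, ← conj_dd v w k h]
    simp only [map_mul, map_zpow, hP, hof, h2]
  rw [hx, Int.emod_add_mul_ediv, MulAut.conj_apply]
  unfold dd
  simp only [mul_assoc]

end Pool.Agent.H690R6.EA.XH
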